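import Pool.Agent.H.MP_ee92c9_pr.E

namespace Pool.Agent.Results.MP_ee92c9_pr.Bounded

open MeasureTheory Set ENNReal NNReal Pool.Agent.H.MP_ee92c9_pr

/-- The optimal transport cost for `c_q(x, y) = |x - y| ^ q`: the infimum over all joint laws with marginals `P`, `Q`. -/
noncomputable def optCost (q : ℝ) (P Q : ProbabilityMeasure ℝ) : ℝ≥0∞ :=
  ⨅ (π : ProbabilityMeasure (ℝ × ℝ)) (_ : (π : Measure (ℝ × ℝ)).fst = P ∧ (π : Measure (ℝ × ℝ)).snd = Q),
    ∫⁻ z, .ofReal (|z.1 - z.2| ^ q) ∂(π : Measure (ℝ × ℝ))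

/-- A coupling of all Borel probability measures on the line, realised on `[0, 1]` with Lebesgue measure. -/
def IsCoupling (X : ProbabilityMeasure ℝ → unitInterval → ℝ) : Prop :=
  ∀ P, Measurable (X P) ∧ volume.map (X P) = P

/-- The pairwise coupling ratio of a coupling. -/
noncomputable def ratio (q : ℝ) (X : ProbabilityMeasure ℝ → unitInterval → ℝ) : ℝ≥0∞ :=
  ⨅ (r : ℝ≥0) (_ : 1 ≤ r ∧ ∀ P Q, ∫⁻ u, .ofReal (|X P u - X Q u| ^ q) ≤ r * optCost q P Q), r

/-- The optimal pairwise coupling ratio. -/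
noncomputable def optRatio (q : ℝ) : ℝ≥0∞ := ⨅ (X) (_ : IsCoupling X), ratio q X

lemma key {q : ℝ} {X : Measure ℝ → unitInterval → ℝ} {K : ℝ≥0∞} (hK : K ≤ 256)
    (h1 : ∀ P, IsProbabilityMeasure P → Measurable (X P) ∧ volume.map (X P) = P)
    (h2 : ∀ (π : Measure (ℝ × ℝ)) [IsProbabilityMeasure π], ∫⁻ u, .ofReal (|X π.fst u - X π.snd u| ^ q) ≤
      K * ∫⁻ z, .ofReal (|z.1 - z.2| ^ q) ∂π) : optRatio q ≤ 256 := by
  refine iInf₂_le_of_le (fun P => X P) (fun P => h1 P inferInstance) (iInf₂_le_of_le 256 ⟨by norm_num, fun P Q => ?_⟩ le_rfl)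
  simp only [optCost, ENNReal.mul_iInf_of_ne (a := (256 : ℝ≥0)) (by simp) coe_ne_top]
  exact le_iInf₂ fun π h => (h.1 ▸ h.2 ▸ h2 π).trans (mul_le_mul_left hK _)

theorem result : ∃ K : ℝ≥0, ∀ q : ℝ, 0 < q → optRatio q ≤ K := by
  refine ⟨256, fun q hq => ?_⟩
  rcases le_or_gt 1 q with h1 | h1
  · exact key (K := 1) (by norm_num) (fun P _ => ⟨qu_meas P, qu_map P⟩) fun π _ => (convex h1 π).trans_eq (one_mul _).symm
  rcases le_total q (1 / 2) with h2 | h2
  · obtain ⟨L, a, b, c, d⟩ := exL hq h2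
    have : NeZero L := ⟨by omega⟩
    obtain ⟨X, h3, h4⟩ := main (good_r a) hq (loc_r a hq) (K := 24) fun r hr => by
      have e : ∀ k : ℤ, ENNReal.ofReal (((L : ℝ) ^ k) ^ q) ≤ 4 * .ofReal (((L : ℝ) ^ (k - 1)) ^ q) := fun k => by
        rw [← ofReal_ofNat, ← ofReal_mul (by norm_num), show (L : ℝ) ^ k = L * L ^ (k - 1) by
          rw [mul_comm, ← zpow_add_one₀ (by positivity), sub_add_cancel], Real.mul_rpow (by positivity) (by positivity)]
        gcongr
      have e2 := geo b d hq h1 a hr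
      rw [ENNReal.tsum_add, show (24 : ℝ≥0∞) = 4 * 4 + 2 * 4 by norm_num, add_mul, mul_assoc, mul_assoc]
      refine add_le_add ((ENNReal.tsum_le_tsum fun k => (mul_le_mul_left (e k) _).trans_eq (mul_assoc ..)).trans
        (ENNReal.tsum_mul_left.trans_le (mul_le_mul_right (le_of_eq_of_le ?_ e2) _))) ?_
      · exact (Equiv.subRight (1 : ℤ)).tsum_eq fun k => .ofReal (((L : ℝ) ^ k) ^ q) * min 1 (ENNReal.ofReal (r / L ^ k))
      · simp only [mul_comm _ (2 : ℝ≥0∞), mul_assoc, ENNReal.tsum_mul_left]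
        exact mul_le_mul_right e2 _
    exact key (by norm_num) h3 h4
  · obtain ⟨L, a, b, c, d⟩ := exL (r := 1 - q) (by linarith) (by linarith)
    rw [_root_.sub_sub_cancel] at d
    obtain ⟨X, h3, h4⟩ := main (good_q a) hq (loc_q a h1.le) (K := 128) fun r hr => by
      have h0 : (0 : ℝ) < L := by positivity
      rw [show (128 : ℝ≥0∞) = 32 * 4 by norm_num, mul_assoc]
      refine le_trans (ENNReal.tsum_le_tsum fun k => ?_) (ENNReal.tsum_mul_left.trans_le
        (mul_le_mul_right (geo d b hq h1 a hr) _))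
      have e : (L : ℝ) ^ k = L * L ^ (k - 1) := by rw [mul_comm, ← zpow_add_one₀ h0.ne', sub_add_cancel]
      have e1 : min (L : ℝ≥0∞) (.ofReal (r / L ^ (k - 1))) = L * min 1 (.ofReal (r / L ^ k)) := by
        rw [mul_min, mul_one, ← ofReal_natCast, ← ofReal_mul h0.le, e]
        congr 2
        field_simp
      rw [e1, ← mul_assoc, ← add_mul, ← mul_add, ← mul_assoc, ← ofReal_natCast, ← ofReal_ofNat 3, ← ofReal_ofNat 32,
        ← ofReal_mul (by norm_num), ← ofReal_add h0.le (by positivity), ← ofReal_mul (by positivity),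
        ← ofReal_mul (by norm_num), e, Real.mul_rpow h0.le (by positivity)]
      refine mul_le_mul_left (ofReal_le_ofReal ?_) _
      rw [Real.rpow_sub h0, Real.rpow_one, div_le_iff₀ (by positivity)] at c
      nlinarith [mul_le_mul_of_nonneg_right c (Real.rpow_pos_of_pos (zpow_pos h0 (k - 1)) q).le]
    exact key (by norm_num) h3 h4

end Pool.Agent.Results.MP_ee92c9_pr.Bounded
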